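import Pool.Agent.W2helper94.FW.E
import Pool.Agent.W2helper94.CV.I

set_option autoImplicit false

/-!
Shells of relative heights in a set `P`.
-/

open MeasureTheory Set Metric
open scoped ENNReal NNReal

namespace Pool.Agent.W2helper94.FW

open Pool.Agent.W2helper94.KC Pool.Agent.W2helper94.CV
open Pool.Agent.H803R2.Kak
open Pool.Agent.H805R3.Kk.Gen (rad rad_pos)

variable {d : ℕ}

theorem sI_PA_le (P : Set ℝ) (i : ℕ) (a : ℝ) : sI (P ∩ shA i) a ≤ cu P ((1/2:ℝ) ^ i) a := by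
  by_cases h : a ∈ P ∩ shA i
  · have e1 : sI P a = 1 := indicator_of_mem h.1 _
    unfold cu
    rw [e1, oo_one h.2.1, one_mul]
    exact sI_le _ _
  · have : sI (P ∩ shA i) a = 0 := indicator_of_notMem h _
    rw [this]
    exact zero_le

theorem sI_mono {A B : Set ℝ} (h : A ⊆ B) (a : ℝ) : sI A a ≤ sI B a :=
  indicator_le_indicator_of_subset h (fun _ => zero_le) a

theorem TS_constP {b : E d → E d} {τ : E d → ℝ} {c r : ℝ} (hr : 0 < r) (P : Set ℝ) (i : ℕ)
    {F : E d × ℝ → ℝ≥0∞} {M : ℝ≥0∞} (hMt : M ≠ ∞) (h : ∀ q, F q ≤ M) (v : E d) :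
    TS b τ c r (P ∩ shA i) F v ≤ M * ENNReal.ofReal (8 * (1/2:ℝ) ^ i) := by
  refine le_trans ?_ (TS_const (b := b) (τ := τ) (c := c) hr i hMt h v)
  unfold TS
  apply lintegral_mono
  intro t
  show sI (P ∩ shA i) (t - τ v) * moll r F (b v + t • v, t) ≤
    sI (shA i) (t - τ v) * moll r F (b v + t • v, t)
  gcongr
  exact sI_mono inter_subset_right _

end Pool.Agent.W2helper94.FW
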