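import Pool.Agent.W2helper94.FW.F

set_option autoImplicit false

/-!
The estimate for one shell.
-/

open MeasureTheory Set Metric
open scoped ENNReal NNReal

namespace Pool.Agent.W2helper94.FW

open Pool.Agent.W2helper94.KC Pool.Agent.W2helper94.CV
open Pool.Agent.H803R2.Kak
open Pool.Agent.H805R3.Kk.Gen (rad rad_pos)

variable {d : ℕ}

theorem weak {P : Set ℝ} (hP : MeasurableSet P) {D : Set (E d)} {φ : E d → ℝ} {b : E d → E d} {τ : E d → ℝ} {C : ℝ} (hC : 0 ≤ C)
    (hrow : RowBd P D φ b τ C) (hφ : Measurable φ) (hb : Measurable b) (hτ : Measurable τ)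
    (hD : MeasurableSet D) (hDB : D ⊆ closedBall 0 1) {κ i : ℕ} (hi : i < κ + 2) {p : ℝ}
    (hp : 2 ≤ p) (c : ℝ) {F : E d × ℝ → ℝ≥0∞} (hF : Measurable F) {t : ℝ} (ht : 0 < t) :
    ENNReal.ofReal (t ^ p) * (volume.restrict D)
        {v | ENNReal.ofReal t < TS b τ c (rad κ) (P ∩ shA i) F v} ≤
      ENNReal.ofReal (4 * AA d C κ i * (16 * (1/2:ℝ) ^ i) ^ (p - 2)) *
        ∫⁻ s in Icc c (c + 4), ∫⁻ y, F (y, s) ^ p := by
  have hr := rad_pos κ
  set lam : ℝ := (1/2:ℝ) ^ i with hlam
  have hl0 : 0 < lam := by positivity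
  have hrl : 2 * rad κ ≤ 8 * lam := by
    have h1 : (1/2:ℝ) ^ (κ + 1) ≤ lam := pow_le_pow_of_le_one (by norm_num) (by norm_num) (by omega)
    rw [pow_succ] at h1
    have : rad κ = 2 * (1/2:ℝ) ^ κ := rfl
    rw [this]
    linarith
  set θ : ℝ := t / (16 * lam) with hθ
  have hθ0 : 0 < θ := by positivity
  set S : Set (E d × ℝ) := {q | F q ≤ ENNReal.ofReal θ} with hS
  have hSm : MeasurableSet S := measurableSet_le hF measurable_const
  set F1 : E d × ℝ → ℝ≥0∞ := S.indicator F with hF1
  set F2 : E d × ℝ → ℝ≥0∞ := Sᶜ.indicator F with hF2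
  have hF1m : Measurable F1 := hF.indicator hSm
  have hF2m : Measurable F2 := hF.indicator hSm.compl
  have hsum : (fun z => F1 z + F2 z) = F := by
    funext z
    exact indicator_self_add_compl_apply S F z
  have hF1le : ∀ q, F1 q ≤ ENNReal.ofReal θ := by
    intro q
    by_cases h : q ∈ S
    · rw [hF1, indicator_of_mem h]; exact h
    · rw [hF1, indicator_of_notMem h]; exact zero_le
  have hTm := measurable_TS hb hτ c (rad κ) (hP.inter (measurableSet_shA i)) hF
  set L : Set (E d) := {v | ENNReal.ofReal t < TS b τ c (rad κ) (P ∩ shA i) F v} with hL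
  have hLm : MeasurableSet L := measurableSet_lt measurable_const hTm
  rw [Measure.restrict_apply hLm]
  set G : Set (E d) := L ∩ D with hG
  have hGm : MeasurableSet G := hLm.inter hD
  have hGt : volume G ≠ ∞ :=
    ne_top_of_le_ne_top (vol_lt_top (d := d) (r := 1)).ne
      (measure_mono (inter_subset_right.trans hDB))
  -- lower bound on `G`
  have hlow : ∀ v ∈ G, ENNReal.ofReal (t / 2) ≤ TS b τ c (rad κ) (P ∩ shA i) F2 v := by
    intro v hv
    have h1 : ENNReal.ofReal t < TS b τ c (rad κ) (P ∩ shA i) F v := hv.1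
    rw [← hsum, TS_add hb (hP.inter (measurableSet_shA i)) hF1m] at h1
    have h2 := TS_constP (b := b) (τ := τ) (c := c) hr P i ENNReal.ofReal_ne_top hF1le v
    rw [← ENNReal.ofReal_mul hθ0.le] at h2
    have e1 : θ * (8 * (1/2:ℝ) ^ i) = t / 2 := by
      rw [hθ, ← hlam]
      field_simp
      norm_num
    rw [e1] at h2
    have h3 : ENNReal.ofReal (t / 2) + ENNReal.ofReal (t / 2) ≤
        ENNReal.ofReal (t / 2) + TS b τ c (rad κ) (P ∩ shA i) F2 v := by
      rw [← ENNReal.ofReal_add (by positivity) (by positivity), add_halves]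
      exact h1.le.trans (add_le_add h2 le_rfl)
    exact (ENNReal.add_le_add_iff_left ENNReal.ofReal_ne_top).1 h3
  have hup : ENNReal.ofReal (t / 2) * volume G ≤
      ∫⁻ v in G, ∫⁻ s in Icc c (c + 4), cu P lam (s - τ v) * moll (rad κ) F2 (b v + s • v, s) := by
    calc ENNReal.ofReal (t / 2) * volume G = ∫⁻ _v in G, ENNReal.ofReal (t / 2) := by
          rw [setLIntegral_const]
      _ ≤ ∫⁻ v in G, TS b τ c (rad κ) (P ∩ shA i) F2 v := setLIntegral_mono' hGm hlow
      _ ≤ _ := by
          apply lintegral_mono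
          intro v
          unfold TS
          apply lintegral_mono
          intro s
          show sI (P ∩ shA i) (s - τ v) * moll (rad κ) F2 (b v + s • v, s) ≤
            cu P lam (s - τ v) * moll (rad κ) F2 (b v + s • v, s)
          gcongr
          exact sI_PA_le P i _
  have hre := restr hP hrow hφ hb hτ hr hl0 hrl hGm inter_subset_right c hF2m
  set X : ℝ≥0∞ := ∫⁻ s in Icc c (c + 4), ∫⁻ y, F2 (y, s) ^ 2 with hX
  have hmain : ENNReal.ofReal (t / 2) ^ 2 * volume G ≤ ENNReal.ofReal (AA d C κ i) * X := by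
    by_cases h0 : volume G = 0
    · rw [h0, mul_zero]; exact zero_le
    have h1 : (ENNReal.ofReal (t / 2) * volume G) ^ 2 ≤
        ENNReal.ofReal (AA d C κ i) * volume G * X := (pow_le_pow_left' hup 2).trans hre
    have h2 : volume G * (ENNReal.ofReal (t / 2) ^ 2 * volume G) ≤
        volume G * (ENNReal.ofReal (AA d C κ i) * X) := by
      calc _ = (ENNReal.ofReal (t / 2) * volume G) ^ 2 := by ring
        _ ≤ _ := h1
        _ = _ := by ring
    exact (ENNReal.mul_le_mul_iff_right h0 hGt).1 h2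
  have hXle : X ≤ ENNReal.ofReal (θ ^ (-(p - 2))) * ∫⁻ s in Icc c (c + 4), ∫⁻ y, F (y, s) ^ p := by
    rw [hX, ← lintegral_const_mul' _ _ ENNReal.ofReal_ne_top]
    apply lintegral_mono
    intro s
    show ∫⁻ y, F2 (y, s) ^ 2 ≤ ENNReal.ofReal (θ ^ (-(p - 2))) * ∫⁻ y, F (y, s) ^ p
    rw [← lintegral_const_mul' _ _ ENNReal.ofReal_ne_top]
    apply lintegral_mono
    intro y
    show F2 (y, s) ^ 2 ≤ ENNReal.ofReal (θ ^ (-(p - 2))) * F (y, s) ^ p
    by_cases h : (y, s) ∈ S
    · have : F2 (y, s) = 0 := by rw [hF2, indicator_of_notMem (by simpa using h)]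
      rw [this]
      simp
    · have h1 : F2 (y, s) = F (y, s) := by rw [hF2, indicator_of_mem (by simpa using h)]
      have h2 : ENNReal.ofReal θ ≤ F (y, s) := (not_le.1 h).le
      rw [h1]
      have hp2 : 0 ≤ p - 2 := by linarith
      calc F (y, s) ^ 2 = (ENNReal.ofReal (θ ^ (-(p - 2))) * ENNReal.ofReal (θ ^ (p - 2))) *
            F (y, s) ^ 2 := by
            rw [← ENNReal.ofReal_mul (by positivity), ← Real.rpow_add hθ0, neg_add_cancel,
              Real.rpow_zero, ENNReal.ofReal_one, one_mul]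
        _ ≤ ENNReal.ofReal (θ ^ (-(p - 2))) * F (y, s) ^ (p - 2) * F (y, s) ^ 2 := by
            gcongr
            rw [← ENNReal.ofReal_rpow_of_pos hθ0]
            exact ENNReal.rpow_le_rpow h2 hp2
        _ = _ := by
            rw [mul_assoc]
            congr 1
            rw [← ENNReal.rpow_two, ← ENNReal.rpow_add_of_nonneg _ _ hp2 (by norm_num)]
            congr 1
            ring
  have hA := AA_nonneg (d := d) hC κ i
  calc ENNReal.ofReal (t ^ p) * volume G
      = ENNReal.ofReal (4 * t ^ (p - 2)) * (ENNReal.ofReal (t / 2) ^ 2 * volume G) := by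
        rw [← mul_assoc, ← ENNReal.ofReal_pow (by positivity), ← ENNReal.ofReal_mul (by positivity)]
        congr 2
        have : t ^ p = t ^ (p - 2) * t ^ 2 := by
          rw [← Real.rpow_natCast, ← Real.rpow_add ht]
          congr 1
          push_cast
          ring
        rw [this]
        ring
    _ ≤ ENNReal.ofReal (4 * t ^ (p - 2)) * (ENNReal.ofReal (AA d C κ i) *
        (ENNReal.ofReal (θ ^ (-(p - 2))) * ∫⁻ s in Icc c (c + 4), ∫⁻ y, F (y, s) ^ p)) := by
        refine mul_le_mul' le_rfl (hmain.trans ?_)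
        gcongr
    _ = _ := by
        rw [← mul_assoc, ← mul_assoc, ← ENNReal.ofReal_mul (by positivity),
          ← ENNReal.ofReal_mul (by positivity)]
        congr 2
        have h1 : t ^ (p - 2) * θ ^ (-(p - 2)) = (16 * lam) ^ (p - 2) := by
          rw [hθ, Real.rpow_neg (by positivity), Real.div_rpow ht.le (by positivity)]
          have : 0 < t ^ (p - 2) := by positivity
          field_simp
        calc 4 * t ^ (p - 2) * AA d C κ i * θ ^ (-(p - 2))
            = 4 * AA d C κ i * (t ^ (p - 2) * θ ^ (-(p - 2))) := by ring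
          _ = _ := by rw [h1]

/-- The strong estimate for one shell. -/
theorem shellS (d : ℕ) {C : ℝ} (hC : 0 ≤ C) : ∃ J0 : ℕ, ∀ (P : Set ℝ), MeasurableSet P → ∀ (D : Set (E d)) (φ : E d → ℝ)
    (b : E d → E d) (τ : E d → ℝ), RowBd P D φ b τ C → Measurable φ → Measurable b → Measurable τ →
    MeasurableSet D → D ⊆ closedBall 0 1 → ∀ (κ i : ℕ), i < κ + 2 → ∀ (p : ℝ), 2 ≤ p → ∀ (c : ℝ)
    (F : E d × ℝ → ℝ≥0∞), Measurable F →
    ∫⁻ v in D, TS b τ c (rad κ) (P ∩ shA i) F v ^ p ≤
      ENNReal.ofReal (omg d + ((J0 : ℝ) + κ * d) * (2 ^ p * (4 * AA d C κ i *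
        (16 * (1/2:ℝ) ^ i) ^ (p - 2)))) * ∫⁻ q, F q ^ p := by
  obtain ⟨J0, hJ0⟩ := levels d
  refine ⟨J0, ?_⟩
  intro P hP D φ b τ hrow hφ hb hτ hD hDB κ i hi p hp c F hF
  have hp0 : 0 < p := by linarith
  have hr := rad_pos κ
  have hω := omg_pos d
  set N : ℝ≥0∞ := ∫⁻ q, F q ^ p with hN
  have hA := AA_nonneg (d := d) hC κ i
  have hconst : 0 < omg d + ((J0 : ℝ) + κ * d) * (2 ^ p * (4 * AA d C κ i *
        (16 * (1/2:ℝ) ^ i) ^ (p - 2))) := by positivity
  by_cases hNt : N = ∞
  · rw [hNt, ENNReal.mul_top (by simpa using hconst)]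
    exact le_top
  set V := volume (closedBall (0:E d) (rad κ)) with hV
  have hVe : V = ENNReal.ofReal (rad κ ^ d * omg d) := by rw [hV, omg_scale d hr]
  -- the trivial bound
  have htriv : ∀ v, TS b τ c (rad κ) (P ∩ shA i) F v ^ p ≤
      ENNReal.ofReal (8 ^ (p - 1) * (rad κ ^ d * omg d)⁻¹) * N := by
    intro v
    have h1 := pow_near (p := p) (by linarith) hr (b := b) hF v (Z := Icc c (c + 4))
      (L := ENNReal.ofReal 8) (by
        rw [Real.volume_Icc]
        apply ENNReal.ofReal_le_ofReal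
        linarith)
    calc TS b τ c (rad κ) (P ∩ shA i) F v ^ p
        ≤ (∫⁻ t in Icc c (c + 4), moll (rad κ) F (b v + t • v, t)) ^ p := by
          apply ENNReal.rpow_le_rpow _ hp0.le
          unfold TS
          apply lintegral_mono
          intro t
          show sI (P ∩ shA i) (t - τ v) * moll (rad κ) F (b v + t • v, t) ≤ _
          calc _ ≤ 1 * moll (rad κ) F (b v + t • v, t) := by
                gcongr
                exact sI_le _ _
            _ = _ := one_mul _
      _ ≤ _ := h1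
      _ = _ := by
          rw [← hV, hVe, ← ENNReal.ofReal_inv_of_pos (by positivity), ← mul_assoc,
            ENNReal.ofReal_rpow_of_pos (by norm_num), ← ENNReal.ofReal_mul (by positivity)]
  by_cases hN0 : N = 0
  · rw [hN0, mul_zero, nonpos_iff_eq_zero]
    have h0 : ∀ v, TS b τ c (rad κ) (P ∩ shA i) F v ^ p = 0 := by
      intro v
      have := htriv v
      rw [hN0, mul_zero] at this
      exact nonpos_iff_eq_zero.1 this
    simp only [h0, lintegral_zero]
  set n : ℝ := N.toReal with hn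
  have hn0 : 0 < n := ENNReal.toReal_pos hN0 hNt
  have hNe : N = ENNReal.ofReal n := (ENNReal.ofReal_toReal hNt).symm
  set t0 : ℝ := n ^ (1 / p) with ht0
  have ht00 : 0 < t0 := by positivity
  have ht0p : t0 ^ p = n := by
    rw [ht0, ← Real.rpow_mul hn0.le, one_div_mul_cancel hp0.ne', Real.rpow_one]
  have hJ : ∀ v, TS b τ c (rad κ) (P ∩ shA i) F v ≤ ENNReal.ofReal (2 ^ (J0 + κ * d) * t0) := by
    intro v
    rw [← ENNReal.rpow_le_rpow_iff hp0]
    refine (htriv v).trans ?_
    rw [ENNReal.ofReal_rpow_of_pos (by positivity), hNe, ← ENNReal.ofReal_mul (by positivity)]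
    apply ENNReal.ofReal_le_ofReal
    rw [Real.mul_rpow (by positivity) ht00.le, ht0p]
    apply mul_le_mul_of_nonneg_right _ hn0.le
    set x : ℝ := (rad κ ^ d * omg d)⁻¹ with hx
    have hx0 : 0 < x := by positivity
    calc 8 ^ (p - 1) * x ≤ 8 ^ p * (1 + x) := by
          apply mul_le_mul
          · exact Real.rpow_le_rpow_of_exponent_le (by norm_num) (by linarith)
          · linarith
          · exact hx0.le
          · positivity
      _ ≤ 8 ^ p * (1 + x) ^ p := by
          gcongr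
          conv_lhs => rw [← Real.rpow_one (1 + x)]
          exact Real.rpow_le_rpow_of_exponent_le (by linarith) (by linarith)
      _ = (8 * (1 + x)) ^ p := by rw [Real.mul_rpow (by norm_num) (by positivity)]
      _ ≤ _ := Real.rpow_le_rpow (by positivity) (hJ0 κ) hp0.le
  have hst := strong (volume.restrict D) (measurable_TS hb hτ c (rad κ) (hP.inter (measurableSet_shA i)) hF)
    hp0 ht00 (J0 + κ * d) hJ (fun t ht => weak hP hC hrow hφ hb hτ hD hDB hi hp c hF ht)
  rw [ht0p, ← hNe, Measure.restrict_apply_univ] at hst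
  have hwin : ∫⁻ s in Icc c (c + 4), ∫⁻ y, F (y, s) ^ p ≤ N :=
    win_int (F := fun q => F q ^ p) (hF.pow_const p)
  calc ∫⁻ v in D, TS b τ c (rad κ) (P ∩ shA i) F v ^ p ≤ _ := hst
    _ ≤ N * ENNReal.ofReal (omg d) + ((J0 + κ * d : ℕ) : ℝ≥0∞) * (ENNReal.ofReal (2 ^ p) *
        (ENNReal.ofReal (4 * AA d C κ i * (16 * (1/2:ℝ) ^ i) ^ (p - 2)) * N)) := by
        gcongr
        exact (measure_mono hDB).trans (omg_eq d).le
    _ = ENNReal.ofReal (omg d) * N + ENNReal.ofReal (((J0 : ℝ) + κ * d) * (2 ^ p * (4 * AA d C κ i *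
        (16 * (1/2:ℝ) ^ i) ^ (p - 2)))) * N := by
        rw [ENNReal.ofReal_mul (by positivity : (0:ℝ) ≤ (J0 : ℝ) + κ * d),
          ENNReal.ofReal_mul (by positivity : (0:ℝ) ≤ 2 ^ p)]
        have e : ((J0 + κ * d : ℕ) : ℝ≥0∞) = ENNReal.ofReal ((J0 : ℝ) + κ * d) := by
          rw [← ENNReal.ofReal_natCast]
          push_cast
          rfl
        rw [e]
        ring
    _ = _ := by
        rw [← add_mul, ← ENNReal.ofReal_add hω.le (by positivity)]

end Pool.Agent.W2helper94.FW
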