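import Pool.Agent.W2helper94.FW.H

set_option autoImplicit false

/-!
The estimate for the maximal function over parts of the tubes.
-/

open MeasureTheory Set Metric
open scoped ENNReal NNReal

namespace Pool.Agent.W2helper94.FW

open Pool.Agent.W2helper94.KC Pool.Agent.W2helper94.CV
open Pool.Agent.H803R2.Kak Pool.Agent.H803R2.KakFTO
open Pool.Agent.H805R3.Kk.Gen (rad rad_pos moll_compare)

variable {d : ℕ}

/-- The restriction of a function to the heights in `P` relative to the height `t0`. -/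
noncomputable def cut (P : Set ℝ) (t0 : ℝ) (f : Space d → ℝ) : Space d → ℝ :=
  {y : Space d | y.snd - t0 ∈ P}.indicator f

theorem measurableSet_cut {P : Set ℝ} (hP : MeasurableSet P) (t0 : ℝ) :
    MeasurableSet {y : Space d | y.snd - t0 ∈ P} := by
  have h : Measurable (fun y : Space d => y.snd - t0) :=
    ((WithLp.measurable_ofLp 2 (Vec d × ℝ)).snd).sub_const t0
  exact h hP

theorem moll_cut {P : Set ℝ} {t0 r : ℝ} {f : Space d → ℝ} (x : E d) (t : ℝ) :
    moll r (fun q : E d × ℝ => ‖cut P t0 f (WithLp.toLp 2 q)‖ₑ) (x, t) =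
      sI P (t - t0) * moll r (fun q : E d × ℝ => ‖f (WithLp.toLp 2 q)‖ₑ) (x, t) := by
  unfold moll
  by_cases h : t - t0 ∈ P
  · have e1 : sI P (t - t0) = 1 := indicator_of_mem h _
    rw [e1, one_mul]
    congr 1
    refine lintegral_congr fun w => ?_
    show ‖cut P t0 f (WithLp.toLp 2 (x + w, t))‖ₑ = ‖f (WithLp.toLp 2 (x + w, t))‖ₑ
    unfold cut
    rw [indicator_of_mem (show (WithLp.toLp 2 (x + w, t) : Space d) ∈
      {y : Space d | y.snd - t0 ∈ P} from h)]
  · have e1 : sI P (t - t0) = 0 := indicator_of_notMem h _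
    rw [e1, zero_mul]
    have e2 : ∀ w : E d, ‖cut P t0 f (WithLp.toLp 2 (x + w, t))‖ₑ = 0 := by
      intro w
      unfold cut
      rw [indicator_of_notMem (show (WithLp.toLp 2 (x + w, t) : Space d) ∉
        {y : Space d | y.snd - t0 ∈ P} from h), enorm_zero]
    simp only [e2, lintegral_zero, mul_zero]

/-- **The estimate for the maximal function, for families with the row bound.** -/
theorem lines (hd : 1 ≤ d) {C : ℝ} (hC : 0 ≤ C) {p : ℝ} (hp : 2 ≤ p) :
    ∃ K : ℝ, 0 < K ∧ ∀ (P : Set ℝ), MeasurableSet P → ∀ (D : Set (E d)) (φ : E d → ℝ)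
    (b : E d → E d) (τ : E d → ℝ), RowBd P D φ b τ C → Measurable φ → Measurable b → Measurable τ →
    MeasurableSet D → D ⊆ closedBall 0 1 → ∀ (δ : ℝ), 0 < δ → δ < 1 →
    ∀ (f : Space d → ℝ), Measurable f →
    ∫⁻ v in D, lineMax δ b (cut P (τ v) f) v ^ p ≤
      ENNReal.ofReal (K * (1 + Real.log (1 / δ)) ^ (p + 2) * loss d p δ) * ∫⁻ y, ‖f y‖ₑ ^ p := by
  obtain ⟨K, hK, hwin⟩ := window hd hC hp
  refine ⟨(4 * 16 ^ d) ^ p * (K * 4 ^ (p + 2)) * 5, by positivity, ?_⟩
  intro P hP D φ b τ hrow hφ hb hτ hD hDB δ hδ hδ1 f hf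
  have hp0 : 0 < p := by linarith
  obtain ⟨κ, hk1, hk2⟩ := exists_nat_pow_near_of_lt_one hδ hδ1.le (by norm_num : (0:ℝ) < 1/2)
    (by norm_num)
  have hrd : rad κ = 2 * (1/2:ℝ) ^ κ := rfl
  have hr1 : 2 * δ ≤ rad κ := by rw [hrd]; linarith
  have hr2 : rad κ ≤ 4 * δ := by
    rw [hrd]
    rw [pow_succ] at hk1
    linarith
  have hmp := WithLp.volume_preserving_toLp (Vec d) ℝ
  set F : E d × ℝ → ℝ≥0∞ := fun q => ‖f (WithLp.toLp 2 q)‖ₑ with hFdef
  have hFm : Measurable F := (hf.comp hmp.measurable).enorm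
  have hIF : ∫⁻ q, F q ^ p = ∫⁻ y, ‖f y‖ₑ ^ p :=
    hmp.lintegral_comp (f := fun y : Space d => ‖f y‖ₑ ^ p) (hf.enorm.pow_const _)
  rw [← hIF]
  set X : ℤ → E d → ℝ≥0∞ := fun j v =>
    ∫⁻ t in Wj j, sI P (t - τ v) * moll (rad κ) (Fj F j) (b v + t • v, t) with hX
  have hXm : ∀ j, Measurable (X j) := fun j =>
    (((measurable_sI hP).comp (measurable_snd.sub (hτ.comp measurable_fst))).mul
      (meas_mb hb (r := rad κ) (measurable_Fj hFm j))).lintegral_prod_right'
  have hc : (4 * 16 ^ d : ℝ≥0∞) ≠ ∞ := ENNReal.mul_ne_top (by simp) (ENNReal.pow_ne_top (by simp))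
  set Fv : E d → E d × ℝ → ℝ≥0∞ := fun v q => ‖cut P (τ v) f (WithLp.toLp 2 q)‖ₑ with hFvdef
  have hFv : ∀ v t x, moll (rad κ) (Fv v) (x, t) = sI P (t - τ v) * moll (rad κ) F (x, t) :=
    fun v t x => moll_cut x t
  -- pointwise
  have hpt : ∀ v ∈ D, lineMax δ b (cut P (τ v) f) v ^ p ≤ (4 * 16 ^ d : ℝ≥0∞) ^ p * ∑' j : ℤ, X j v ^ p := by
    intro v hv
    have hv1 : ‖v‖ ≤ 1 := by simpa using hDB hv
    have h1 : lineMax δ b (cut P (τ v) f) v ≤ (4 * 16 ^ d) * (∑' j : ℤ, X j v ^ p) ^ (1 / p) := by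
      calc lineMax δ b (cut P (τ v) f) v ≤ (4 * 8 ^ d) * ⨆ h : ℝ, ∫⁻ t in Icc h (h + 3),
            moll (2*δ) (Fv v) (b v + t • v, t) :=
            lineMax_le hδ hδ1 b hv1 (hf.indicator (measurableSet_cut hP (τ v)))
        _ ≤ (4 * 8 ^ d) * (2 ^ d * (∑' j : ℤ, X j v ^ p) ^ (1 / p)) := by
            gcongr
            apply iSup_le
            intro h
            calc ∫⁻ t in Icc h (h + 3), moll (2*δ) (Fv v) (b v + t • v, t)
                ≤ ∫⁻ t in Icc h (h + 3), 2 ^ d * (sI P (t - τ v) *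
                  moll (rad κ) F (b v + t • v, t)) := by
                  apply lintegral_mono
                  intro t
                  have h9 := moll_compare hδ hr1 hr2 (Fv v) (b v + t • v) t
                  rw [hFv v t (b v + t • v)] at h9
                  exact h9
              _ = 2 ^ d * ∫⁻ t in Icc h (h + 3), sI P (t - τ v) * moll (rad κ) F (b v + t • v, t) :=
                  lintegral_const_mul' _ _ (ENNReal.pow_ne_top (by simp))
              _ ≤ 2 ^ d * (∑' j : ℤ, X j v ^ p) ^ (1 / p) := by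
                  gcongr
                  have h2 : ∫⁻ t in Icc h (h + 3), sI P (t - τ v) * moll (rad κ) F (b v + t • v, t) ≤
                      X ⌊h⌋ v := by
                    have hsub : Icc h (h + 3) ⊆ Wj ⌊h⌋ := by
                      intro t ht
                      have h3 := Int.floor_le h
                      have h4 := Int.lt_floor_add_one h
                      exact ⟨by linarith [ht.1], by linarith [ht.2]⟩
                    refine (lintegral_mono_set hsub).trans (le_of_eq ?_)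
                    rw [hX]
                    simp only
                    apply setLIntegral_congr_fun measurableSet_Icc
                    intro t ht
                    show sI P (t - τ v) * moll (rad κ) F (b v + t • v, t) =
                      sI P (t - τ v) * moll (rad κ) (Fj F ⌊h⌋) (b v + t • v, t)
                    rw [moll_Fj ht _]
                  refine h2.trans ?_
                  have h5 : X ⌊h⌋ v ^ p ≤ ∑' j : ℤ, X j v ^ p := ENNReal.le_tsum ⌊h⌋
                  calc X ⌊h⌋ v = (X ⌊h⌋ v ^ p) ^ (1 / p) := by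
                        rw [← ENNReal.rpow_mul, mul_one_div_cancel hp0.ne', ENNReal.rpow_one]
                    _ ≤ _ := ENNReal.rpow_le_rpow h5 (by positivity)
        _ = _ := by
            have : (16:ℝ≥0∞) ^ d = 8 ^ d * 2 ^ d := by rw [← mul_pow]; norm_num
            rw [this]
            ring
    calc lineMax δ b (cut P (τ v) f) v ^ p ≤ ((4 * 16 ^ d) * (∑' j : ℤ, X j v ^ p) ^ (1 / p)) ^ p :=
          ENNReal.rpow_le_rpow h1 hp0.le
      _ = _ := by
          rw [ENNReal.mul_rpow_of_nonneg _ _ hp0.le, ← ENNReal.rpow_mul,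
            one_div_mul_cancel hp0.ne', ENNReal.rpow_one]
  have hsum : ∫⁻ v in D, lineMax δ b (cut P (τ v) f) v ^ p ≤ (4 * 16 ^ d : ℝ≥0∞) ^ p *
      (ENNReal.ofReal (K * ((κ:ℝ) + 1) ^ (p + 2) * loss d p δ) * (5 * ∫⁻ q, F q ^ p)) := by
    calc ∫⁻ v in D, lineMax δ b (cut P (τ v) f) v ^ p ≤ ∫⁻ v in D, (4 * 16 ^ d : ℝ≥0∞) ^ p * ∑' j : ℤ, X j v ^ p :=
          setLIntegral_mono' hD hpt
      _ = (4 * 16 ^ d : ℝ≥0∞) ^ p * ∑' j : ℤ, ∫⁻ v in D, X j v ^ p := by
          rw [lintegral_const_mul' _ _ (ENNReal.rpow_ne_top_of_nonneg hp0.le hc),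
            lintegral_tsum (fun j => ((hXm j).pow_const p).aemeasurable)]
      _ ≤ (4 * 16 ^ d : ℝ≥0∞) ^ p * ∑' j : ℤ, (ENNReal.ofReal (K * ((κ:ℝ) + 1) ^ (p + 2) *
          loss d p δ) * ∫⁻ q, Fj F j q ^ p) := by
          gcongr with j
          exact hwin P hP D φ b τ hrow hφ hb hτ hD hDB κ δ hδ hδ1 hr1 (j : ℝ) (Fj F j)
            (measurable_Fj hFm j)
      _ ≤ _ := by
          rw [ENNReal.tsum_mul_left]
          gcongr
          exact sum_Fj hFm hp0
  refine hsum.trans ?_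
  -- constants
  have hlog0 : 0 ≤ Real.log (1 / δ) := Real.log_nonneg (by rw [le_div_iff₀ hδ]; linarith)
  set Lam : ℝ := 1 + Real.log (1 / δ) with hLam
  have hLam1 : 1 ≤ Lam := by linarith
  have hκ0 : (0:ℝ) ≤ κ := Nat.cast_nonneg κ
  have hklog : (κ:ℝ) + 1 ≤ 4 * Lam := by
    have h1 : (2:ℝ)^κ ≤ 1/δ := by
      rw [le_div_iff₀ hδ]
      have : δ ≤ ((2:ℝ)^κ)⁻¹ := by
        rw [← inv_pow]; simpa [one_div] using hk2
      calc (2:ℝ)^κ * δ ≤ 2^κ * ((2:ℝ)^κ)⁻¹ := by gcongr
        _ = 1 := mul_inv_cancel₀ (by positivity)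
    have h2 := Real.log_le_log (by positivity) h1
    rw [Real.log_pow] at h2
    have h3 := Real.log_two_gt_d9
    have h4 : (κ:ℝ) * (1/2) ≤ κ * Real.log 2 := by
      apply mul_le_mul_of_nonneg_left _ (Nat.cast_nonneg κ)
      linarith
    rw [hLam]
    linarith
  have hloss := loss_pos (d := d) (p := p) hδ
  have e1 : (4 * 16 ^ d : ℝ≥0∞) ^ p = ENNReal.ofReal ((4 * 16 ^ d) ^ p) := by
    rw [← ENNReal.ofReal_rpow_of_pos (by positivity), ENNReal.ofReal_mul (by norm_num),
      ENNReal.ofReal_pow (by norm_num)]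
    simp
  have e5 : (5 : ℝ≥0∞) = ENNReal.ofReal 5 := by simp
  rw [e1, e5, ← mul_assoc, ← mul_assoc, ← ENNReal.ofReal_mul (by positivity),
    ← ENNReal.ofReal_mul (by positivity)]
  refine mul_le_mul' (ENNReal.ofReal_le_ofReal ?_) le_rfl
  have h6 : ((κ:ℝ) + 1) ^ (p + 2) ≤ 4 ^ (p + 2) * Lam ^ (p + 2) := by
    rw [← Real.mul_rpow (by norm_num) (by positivity)]
    exact Real.rpow_le_rpow (by positivity) hklog (by positivity)
  calc (4 * 16 ^ d) ^ p * (K * ((κ:ℝ) + 1) ^ (p + 2) * loss d p δ) * 5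
      ≤ (4 * 16 ^ d) ^ p * (K * (4 ^ (p + 2) * Lam ^ (p + 2)) * loss d p δ) * 5 := by
        gcongr
    _ = _ := by ring

end Pool.Agent.W2helper94.FW
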