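import Pool.Agent.W2helper94.FW.I

set_option autoImplicit false

/-!
The row bound for outgoing families that do not focus.
-/

open MeasureTheory Set Metric
open scoped ENNReal NNReal

namespace Pool.Agent.W2helper94.FW

open Pool.Agent.W2helper94.KC Pool.Agent.W2helper94.CV
open Pool.Agent.H803R2.Kak

variable {m : ℕ}

/-! ### The inverse of the label along a ray -/

/-- The parameter of the ray at which the label is `α`. -/
noncomputable def rinv (φ : E (m + 1) → ℝ) (v₀ : E (m + 1)) (κ : ℝ) (θ : E (m + 1)) (α : ℝ) : ℝ :=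
  sInf {t : ℝ | α ≤ ray φ v₀ κ θ t}

theorem ray_mono {φ : E (m + 1) → ℝ} {v₀ : E (m + 1)} {κ : ℝ} (h : Sharp φ v₀ κ) {θ : E (m + 1)}
    (hθ : ‖θ‖ = 1) : StrictMono (ray φ v₀ κ θ) := by
  intro s t hst
  have h1 := ray_expand h hθ s t hst.le
  have h2 : 0 < κ * (t - s) := mul_pos h.pos (by linarith)
  linarith

theorem rinv_ray {φ : E (m + 1) → ℝ} {v₀ : E (m + 1)} {κ : ℝ} (h : Sharp φ v₀ κ) {θ : E (m + 1)}
    (hθ : ‖θ‖ = 1) (t : ℝ) : rinv φ v₀ κ θ (ray φ v₀ κ θ t) = t := by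
  unfold rinv
  have e : {s : ℝ | ray φ v₀ κ θ t ≤ ray φ v₀ κ θ s} = Ici t := by
    ext s
    exact (ray_mono h hθ).le_iff_le
  rw [e, csInf_Ici]

theorem rinv_le_iff {φ : E (m + 1) → ℝ} {v₀ : E (m + 1)} {κ : ℝ} (h : Sharp φ v₀ κ) {θ : E (m + 1)}
    (hθ : ‖θ‖ = 1) (α t : ℝ) :
    rinv φ v₀ κ θ α ≤ t ↔ ∀ n : ℕ, α ≤ ray φ v₀ κ θ (t + 1 / ((n : ℝ) + 1)) := by
  have hκ := h.pos
  have hmono := ray_mono h hθ
  have hne : {s : ℝ | α ≤ ray φ v₀ κ θ s}.Nonempty := by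
    refine ⟨max 0 ((α - ray φ v₀ κ θ 0) / κ), ?_⟩
    have h1 := ray_expand h hθ 0 (max 0 ((α - ray φ v₀ κ θ 0) / κ)) (le_max_left _ _)
    have h2 : α - ray φ v₀ κ θ 0 ≤ κ * (max 0 ((α - ray φ v₀ κ θ 0) / κ) - 0) := by
      rw [sub_zero]
      calc α - ray φ v₀ κ θ 0 = κ * ((α - ray φ v₀ κ θ 0) / κ) := by field_simp
        _ ≤ _ := by gcongr; exact le_max_right _ _
    show α ≤ _
    linarith
  have hbd : BddBelow {s : ℝ | α ≤ ray φ v₀ κ θ s} := by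
    refine ⟨min 0 ((α - ray φ v₀ κ θ 0) / κ) - 1, ?_⟩
    intro s hs
    by_contra hcon
    push Not at hcon
    have h0 : min 0 ((α - ray φ v₀ κ θ 0) / κ) ≤ 0 := min_le_left _ _
    have h1 := ray_expand h hθ s 0 (by linarith)
    have h2 : min 0 ((α - ray φ v₀ κ θ 0) / κ) ≤ (α - ray φ v₀ κ θ 0) / κ := min_le_right _ _
    have h3 : s < (α - ray φ v₀ κ θ 0) / κ := by linarith
    have h4 : κ * s < α - ray φ v₀ κ θ 0 := by
      have := mul_lt_mul_of_pos_left h3 hκ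
      rwa [mul_div_cancel₀ _ hκ.ne'] at this
    have h5 : α ≤ ray φ v₀ κ θ s := hs
    nlinarith
  constructor
  · intro h1 n
    have hn : (0:ℝ) < 1 / ((n : ℝ) + 1) := by positivity
    have h2 : rinv φ v₀ κ θ α < t + 1 / ((n : ℝ) + 1) := by linarith
    obtain ⟨s, hs, hst⟩ := exists_lt_of_csInf_lt hne h2
    exact le_trans hs (hmono.monotone hst.le)
  · intro h1
    apply le_of_forall_pos_le_add
    intro ε hε
    obtain ⟨n, hn⟩ := exists_nat_one_div_lt hε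
    exact (csInf_le hbd (h1 n)).trans (by linarith)

theorem measurable_ray2 {φ : E (m + 1) → ℝ} {v₀ : E (m + 1)} {κ : ℝ} (h : Sharp φ v₀ κ) (t : ℝ) :
    Measurable (fun θ : E (m + 1) => ray φ v₀ κ θ t) := by
  unfold ray
  by_cases ht : t ≤ 0
  · simp only [if_pos ht]
    exact measurable_const
  · simp only [if_neg ht]
    exact (h.cont.comp (continuous_const.add (continuous_id.const_smul t))).measurable

theorem measurable_rinv {φ : E (m + 1) → ℝ} {v₀ : E (m + 1)} {κ : ℝ} (h : Sharp φ v₀ κ) :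
    Measurable (fun q : sphere (0 : E (m + 1)) 1 × ℝ =>
      rinv φ v₀ κ (q.1 : E (m + 1)) q.2) := by
  apply measurable_of_Iic
  intro t
  have e : (fun q : sphere (0 : E (m + 1)) 1 × ℝ => rinv φ v₀ κ (q.1 : E (m + 1)) q.2) ⁻¹' (Iic t) =
      ⋂ n : ℕ, {q : sphere (0 : E (m + 1)) 1 × ℝ |
        q.2 ≤ ray φ v₀ κ (q.1 : E (m + 1)) (t + 1 / ((n : ℝ) + 1))} := by
    ext q
    have hθ : ‖(q.1 : E (m + 1))‖ = 1 := by simp
    rw [mem_preimage, mem_Iic, rinv_le_iff h hθ, mem_iInter]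
    rfl
  rw [e]
  apply MeasurableSet.iInter
  intro n
  exact measurableSet_le measurable_snd ((measurable_ray2 h _).comp
    (measurable_subtype_coe.comp measurable_fst))

/-! ### The heights -/

theorem win2 {φ : E (m + 1) → ℝ} (hφ : ConvexOn ℝ univ φ) {L : ℝ} (hL0 : 0 < L)
    (hL : ∀ v w : E (m + 1), ‖v‖ < 20 → ‖w‖ < 20 → |φ v - φ w| ≤ L * ‖v - w‖)
    {r τ1 τ2 : ℝ} (hr : 0 < r) (h12 : 0 < τ1 * τ2) (habs : |τ1| ≤ |τ2|) (hr2 : r ≤ 8 * |τ2|)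
    {v1 v2 w z p1 p2 : E (m + 1)} (hv1 : ‖v1‖ ≤ 1) (hw : ‖w‖ ≤ 1) (hvv : φ v1 = φ v2)
    (hA : φ v2 ≤ φ (v2 + τ2⁻¹ • (p2 - p1)))
    (h1 : ‖(p1 + τ1 • v1) - (z + τ1 • w)‖ ≤ r) (h2 : ‖(p2 + τ2 • v2) - (z + τ2 • w)‖ ≤ r) :
    (|τ2| - |τ1|) * (φ v2 - φ w) ≤ 2 * L * r := by
  have hτ2 : τ2 ≠ 0 := by
    rintro rfl
    simp at h12
  have hτ2a : 0 < |τ2| := abs_pos.2 hτ2
  set k : ℝ := |τ1| / |τ2| with hk
  have hk0 : 0 ≤ k := by positivity
  have hk1 : k ≤ 1 := by rw [hk, div_le_one hτ2a]; exact habs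
  have hkk : τ2⁻¹ * τ1 = k := by
    rcases lt_or_gt_of_ne hτ2 with h | h
    · have h3 : τ1 < 0 := by
        by_contra hcon
        push Not at hcon
        nlinarith
      rw [hk, abs_of_neg h3, abs_of_neg h]
      field_simp
    · have h3 : 0 < τ1 := by
        by_contra hcon
        push Not at hcon
        nlinarith
      rw [hk, abs_of_pos h3, abs_of_pos h]
      field_simp
  set ε1 := (p1 + τ1 • v1) - (z + τ1 • w) with hε1
  set ε2 := (p2 + τ2 • v2) - (z + τ2 • w) with hε2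
  set X := v2 + τ2⁻¹ • (p2 - p1) with hX
  set Y := k • v1 + (1 - k) • w with hY
  have hXY : X - Y = τ2⁻¹ • (ε2 - ε1) := by
    have e2 : τ2⁻¹ * τ2 = 1 := inv_mul_cancel₀ hτ2
    have e1 : X = (τ2⁻¹ * τ2) • v2 + τ2⁻¹ • (p2 - p1) := by rw [hX, e2, one_smul]
    have e3 : Y = (τ2⁻¹ * τ1) • v1 + (τ2⁻¹ * τ2 - τ2⁻¹ * τ1) • w := by rw [hY, e2, hkk]
    rw [e1, e3, hε1, hε2]
    module
  have hn : ‖X - Y‖ ≤ |τ2|⁻¹ * (2 * r) := by
    rw [hXY, norm_smul, norm_inv, Real.norm_eq_abs]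
    gcongr
    exact (norm_sub_le _ _).trans (by linarith)
  have hn16 : |τ2|⁻¹ * (2 * r) ≤ 16 := by
    rw [inv_mul_eq_div, div_le_iff₀ hτ2a]
    linarith
  have hYn : ‖Y‖ ≤ 1 := by
    rw [hY]
    refine (norm_add_le _ _).trans ?_
    rw [norm_smul, norm_smul, Real.norm_eq_abs, Real.norm_eq_abs, abs_of_nonneg hk0,
      abs_of_nonneg (by linarith : 0 ≤ 1 - k)]
    nlinarith [mul_le_mul_of_nonneg_left hv1 hk0,
      mul_le_mul_of_nonneg_left hw (by linarith : 0 ≤ 1 - k)]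
  have hXn : ‖X‖ ≤ 17 := by
    have e5 : X = (X - Y) + Y := by abel
    rw [e5]
    exact (norm_add_le _ _).trans (by linarith)
  have h3 := hL X Y (by linarith) (by linarith)
  have h4 : φ X ≤ φ Y + L * (|τ2|⁻¹ * (2 * r)) := by
    have h5 : L * ‖X - Y‖ ≤ L * (|τ2|⁻¹ * (2 * r)) := by gcongr
    have := le_abs_self (φ X - φ Y)
    linarith
  have h5 : φ Y ≤ k * φ v1 + (1 - k) * φ w :=
    hφ.2 (mem_univ _) (mem_univ _) hk0 (by linarith) (by ring)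
  rw [hvv] at h5
  have h6 : (1 - k) * (φ v2 - φ w) ≤ L * (|τ2|⁻¹ * (2 * r)) := by linarith
  have h7 : |τ2| - |τ1| = |τ2| * (1 - k) := by
    rw [hk]
    field_simp
  rw [h7]
  calc |τ2| * (1 - k) * (φ v2 - φ w) = |τ2| * ((1 - k) * (φ v2 - φ w)) := by ring
    _ ≤ |τ2| * (L * (|τ2|⁻¹ * (2 * r))) := by gcongr
    _ = 2 * L * r := by field_simp

theorem vol_of_diam {W : Set ℝ} {B : ℝ} (h : ∀ s1 ∈ W, ∀ s2 ∈ W, s1 ≤ s2 → s2 - s1 ≤ B) :
    volume W ≤ ENNReal.ofReal B := by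
  refine (Real.volume_le_diam W).trans (Metric.ediam_le fun s1 h1 s2 h2 => ?_)
  rw [edist_dist, Real.dist_eq]
  apply ENNReal.ofReal_le_ofReal
  rcases le_total s1 s2 with h3 | h3
  · rw [abs_sub_comm, abs_of_nonneg (by linarith)]
    exact h s1 h1 s2 h2 h3
  · rw [abs_of_nonneg (by linarith)]
    exact h s2 h2 s1 h1 h3

/-- The heights at which a line is close to the lines of label `α`. -/
def SS (P : Set ℝ) (D : Set (E (m + 1))) (φ : E (m + 1) → ℝ) (p : E (m + 1) → E (m + 1))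
    (r lam σ α : ℝ) (q w : E (m + 1)) : Set ℝ :=
  {s | s - σ ∈ P ∧ lam ≤ |s - σ| ∧ ∃ v ∈ D, φ v = α ∧
    ‖(p v + (s - σ) • v) - (q + s • w)‖ ≤ r}

theorem vol_SS {P : Set ℝ} {D : Set (E (m + 1))} {φ : E (m + 1) → ℝ} (hφ : ConvexOn ℝ univ φ)
    {p : E (m + 1) → E (m + 1)} {L : ℝ} (hL0 : 0 < L)
    (hL : ∀ v w : E (m + 1), ‖v‖ < 20 → ‖w‖ < 20 → |φ v - φ w| ≤ L * ‖v - w‖)
    {r lam : ℝ} (hr : 0 < r) (hl : 0 < lam) (hrl : r ≤ 8 * lam)
    (hDB : ∀ v ∈ D, ‖v‖ ≤ 1)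
    (hA : ∀ v ∈ D, ∀ v' ∈ D, φ v = φ v' → ∀ t ∈ P, t ≠ 0 → φ v ≤ φ (v + t⁻¹ • (p v - p v')))
    (σ α : ℝ) {q w : E (m + 1)} (hw : ‖w‖ ≤ 1) (hα : φ w < α) :
    volume (SS P D φ p r lam σ α q w) ≤ ENNReal.ofReal (4 * L * r / (α - φ w)) := by
  set B : ℝ := 2 * L * r / (α - φ w) with hB
  have hα0 : 0 < α - φ w := by linarith
  have hB0 : 0 ≤ B := by positivity
  have hpos : volume (SS P D φ p r lam σ α q w ∩ Ioi σ) ≤ ENNReal.ofReal B := by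
    apply vol_of_diam
    rintro s1 ⟨⟨hp1, hl1, v1, hv1, hφ1, h1⟩, hs1⟩ s2 ⟨⟨hp2, hl2, v2, hv2, hφ2, h2⟩, hs2⟩ h12
    have hs1' : 0 < s1 - σ := by linarith [mem_Ioi.1 hs1]
    have hs2' : 0 < s2 - σ := by linarith [mem_Ioi.1 hs2]
    have e : ∀ s, q + s • w = (q + σ • w) + (s - σ) • w := fun s => by module
    rw [e] at h1 h2
    have h3 := win2 hφ hL0 hL hr (mul_pos hs1' hs2')
      (by rw [abs_of_pos hs1', abs_of_pos hs2']; linarith)
      (hrl.trans (by linarith)) (hDB v1 hv1) hw (by rw [hφ1, hφ2])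
      (hA v2 hv2 v1 hv1 (by rw [hφ1, hφ2]) _ hp2 hs2'.ne') h1 h2
    rw [abs_of_pos hs1', abs_of_pos hs2', hφ2] at h3
    rw [hB, le_div_iff₀ hα0]
    have e2 : s2 - σ - (s1 - σ) = s2 - s1 := by ring
    rw [e2] at h3
    exact h3
  have hneg : volume (SS P D φ p r lam σ α q w ∩ Iio σ) ≤ ENNReal.ofReal B := by
    apply vol_of_diam
    rintro s1 ⟨⟨hp1, hl1, v1, hv1, hφ1, h1⟩, hs1⟩ s2 ⟨⟨hp2, hl2, v2, hv2, hφ2, h2⟩, hs2⟩ h12
    have hs1' : s1 - σ < 0 := by linarith [mem_Iio.1 hs1]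
    have hs2' : s2 - σ < 0 := by linarith [mem_Iio.1 hs2]
    have e : ∀ s, q + s • w = (q + σ • w) + (s - σ) • w := fun s => by module
    rw [e] at h1 h2
    have h3 := win2 hφ hL0 hL hr (mul_pos_of_neg_of_neg hs2' hs1')
      (by rw [abs_of_neg hs1', abs_of_neg hs2']; linarith)
      (hrl.trans (by linarith)) (hDB v2 hv2) hw (by rw [hφ1, hφ2])
      (hA v1 hv1 v2 hv2 (by rw [hφ1, hφ2]) _ hp1 hs1'.ne) h2 h1
    rw [abs_of_neg hs1', abs_of_neg hs2', hφ1] at h3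
    rw [hB, le_div_iff₀ hα0]
    have e2 : -(s1 - σ) - -(s2 - σ) = s2 - s1 := by ring
    rw [e2] at h3
    exact h3
  have hsub : SS P D φ p r lam σ α q w ⊆
      (SS P D φ p r lam σ α q w ∩ Ioi σ) ∪ (SS P D φ p r lam σ α q w ∩ Iio σ) := by
    intro s hs
    have h1 : 0 < |s - σ| := lt_of_lt_of_le hl hs.2.1
    rcases lt_or_gt_of_ne (abs_pos.1 h1) with h2 | h2
    · exact Or.inr ⟨hs, mem_Iio.2 (by linarith)⟩
    · exact Or.inl ⟨hs, mem_Ioi.2 (by linarith)⟩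
  calc volume (SS P D φ p r lam σ α q w) ≤ _ := measure_mono hsub
    _ ≤ _ := measure_union_le _ _
    _ ≤ ENNReal.ofReal B + ENNReal.ofReal B := add_le_add hpos hneg
    _ = _ := by
        rw [← ENNReal.ofReal_add hB0 hB0]
        congr 1
        rw [hB]
        ring

end Pool.Agent.W2helper94.FW
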