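import Pool.Agent.W2helper94.FW.R

set_option autoImplicit false

/-!
The row bound for outgoing families that do not focus: integration.
-/

open MeasureTheory Set Metric
open scoped ENNReal NNReal

namespace Pool.Agent.W2helper94.FW

open Pool.Agent.W2helper94.KC Pool.Agent.W2helper94.CV
open Pool.Agent.H803R2.Kak

variable {m : ℕ}

/-- **The row bound for outgoing families that do not focus.** -/
theorem rowP {φ : E (m + 1) → ℝ} {v₀ : E (m + 1)} {κ β : ℝ} (h : Sharp φ v₀ κ) (hβ : 0 < β) :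
    ∃ C : ℝ, 0 < C ∧ ∀ (P : Set ℝ) (D : Set (E (m + 1))) (p : E (m + 1) → E (m + 1)) (σ : ℝ → ℝ),
      MeasurableSet P → MeasurableSet D → D ⊆ closedBall 0 1 → Measurable p → Measurable σ →
      (∀ v ∈ D, ∀ v' ∈ D, φ v = φ v' → ∀ t ∈ P, t ≠ 0 → φ v ≤ φ (v + t⁻¹ • (p v - p v'))) →
      (∀ v ∈ D, ∀ v' ∈ D, φ v = φ v' → ∀ t ∈ P, t ≠ 0 →
        β * ‖t • (v - v')‖ ≤ ‖(p v + t • v) - (p v' + t • v')‖) →
      RowBd P D φ (fun v => p v - σ (φ v) • v) (fun v => σ (φ v)) C := by
  obtain ⟨L, hL0, hL⟩ := lip_ball h.conv 20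
  obtain ⟨C1, hC1, hcap⟩ := MM_int (m := m)
  have hκ := h.pos
  have hlog : 0 ≤ Real.log (1 + 2 * L) := Real.log_nonneg (by linarith)
  refine ⟨κ⁻¹ * ((C1 * (2 / β) ^ m) * (8 * (1 + L) * (1 + Real.log (1 + 2 * L)))), by positivity, ?_⟩
  intro P D p σ hP hD hDB hp hσ hA hB r lam c hr hl hrl w hw
  have hφm : Measurable φ := h.cont.measurable
  have hDn : ∀ v ∈ D, ‖v‖ ≤ 1 := fun v hv => by simpa using hDB hv
  have hwn : ‖w‖ ≤ 1 := hDn w hw
  set I : Set ℝ := Icc c (c + 4) with hI
  set q : E (m + 1) := p w - σ (φ w) • w with hq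
  set S := sphere (0 : E (m + 1)) 1
  -- the integrand
  obtain ⟨Ψ, hΨ⟩ : ∃ Ψ : E (m + 1) → ℝ → ℝ → ℝ≥0∞, Ψ = fun v α s => D.indicator (fun _ => 1) v *
    (le1 (φ w) α * (cu P lam (s - σ α) * ic r ((p v + (s - σ α) • v) - (q + s • w)))) := ⟨_, rfl⟩
  set f : E (m + 1) → ℝ≥0∞ := fun v => ∫⁻ s in I, Ψ v (φ v) s with hf
  have hD1 : Measurable (D.indicator (fun _ => (1 : ℝ≥0∞))) := measurable_const.indicator hD
  have hΨm : Measurable (fun z : (E (m + 1) × ℝ) × ℝ => Ψ z.1.1 z.1.2 z.2) := by
    rw [hΨ]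
    have h1 : Measurable (fun z : (E (m + 1) × ℝ) × ℝ => z.1.1) := measurable_fst.comp measurable_fst
    have h2 : Measurable (fun z : (E (m + 1) × ℝ) × ℝ => z.1.2) := measurable_snd.comp measurable_fst
    have h3 : Measurable (fun z : (E (m + 1) × ℝ) × ℝ => z.2 - σ z.1.2) :=
      measurable_snd.sub (hσ.comp h2)
    exact (hD1.comp h1).mul ((measurable_le1 measurable_const h2).mul
      ((measurable_cu hP h3).mul ((measurable_ic r).comp
      (((hp.comp h1).add (h3.smul h1)).sub ((measurable_snd.smul_const w).const_add q)))))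
  have hfm : Measurable f := by
    have h1 : Measurable (fun z : E (m + 1) × ℝ => Ψ z.1 (φ z.1) z.2) := by
      have h2 := hΨm.comp ((measurable_fst.prodMk (hφm.comp measurable_fst)).prodMk measurable_snd :
        Measurable (fun z : E (m + 1) × ℝ => ((z.1, φ z.1), z.2)))
      simp only [Function.comp_def] at h2
      exact h2
    exact h1.lintegral_prod_right'
  have hLHS : ∫⁻ v in D, le1 (φ w) (φ v) * ∫⁻ s in I, cu P lam (s - σ (φ v)) *
      ic r ((p v - σ (φ v) • v + s • v) - (p w - σ (φ w) • w + s • w)) ≤ ∫⁻ v, f v := by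
    rw [← lintegral_indicator hD]
    apply lintegral_mono
    intro v
    by_cases hv : v ∈ D
    · rw [indicator_of_mem hv]
      simp only [hf, hΨ]
      have hle : le1 (φ w) (φ v) ≠ ∞ := ne_top_of_le_ne_top ENNReal.one_ne_top (le1_le _ _)
      rw [← lintegral_const_mul' _ _ hle]
      apply le_of_eq
      refine lintegral_congr fun s => ?_
      rw [indicator_of_mem hv, one_mul]
      congr 3
      rw [hq, sub_smul]
      abel_nf
    · rw [indicator_of_notMem hv]
      exact zero_le
  refine hLHS.trans ?_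
  -- polar coordinates with the label
  obtain ⟨g, hg⟩ : ∃ g : (S × ℝ) × ℝ → ℝ≥0∞, g = fun z =>
    ENNReal.ofReal ((max 0 (rinv φ v₀ κ (z.1.1 : E (m + 1)) z.1.2)) ^ m) *
    (({x : ℝ | x = 0} : Set ℝ).indicator (fun _ => (1 : ℝ≥0∞))
      (φ (v₀ + (max 0 (rinv φ v₀ κ (z.1.1 : E (m + 1)) z.1.2)) • (z.1.1 : E (m + 1))) - z.1.2) *
    Ψ (v₀ + (max 0 (rinv φ v₀ κ (z.1.1 : E (m + 1)) z.1.2)) • (z.1.1 : E (m + 1))) z.1.2 z.2) :=
    ⟨_, rfl⟩
  have hgm : Measurable g := by
    rw [hg]
    have h1 : Measurable (fun z : (S × ℝ) × ℝ =>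
        max 0 (rinv φ v₀ κ (z.1.1 : E (m + 1)) z.1.2)) :=
      measurable_const.max ((measurable_rinv h).comp measurable_fst)
    have h2 : Measurable (fun z : (S × ℝ) × ℝ => (z.1.1 : E (m + 1))) :=
      measurable_subtype_coe.comp (measurable_fst.comp measurable_fst)
    have h3 : Measurable (fun z : (S × ℝ) × ℝ =>
        v₀ + (max 0 (rinv φ v₀ κ (z.1.1 : E (m + 1)) z.1.2)) • (z.1.1 : E (m + 1))) :=
      (h1.smul h2).const_add v₀
    have h4 : Measurable (fun z : (S × ℝ) × ℝ => z.1.2) := measurable_snd.comp measurable_fst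
    have h0 : MeasurableSet ({x : ℝ | x = 0} : Set ℝ) := measurableSet_eq
    have h5 := hΨm.comp ((h3.prodMk h4).prodMk measurable_snd)
    simp only [Function.comp_def] at h5
    exact ((h1.pow_const m).ennreal_ofReal).mul
      (((measurable_const.indicator h0).comp ((hφm.comp h3).sub h4)).mul h5)
  set FF : S → ℝ → ℝ≥0∞ := fun θ α => ∫⁻ s in I, g ((θ, α), s) with hFF
  have hFm : Measurable (fun z : S × ℝ => FF z.1 z.2) := hgm.lintegral_prod_right'
  have hstep : ∀ θ : S, ∫⁻ ρ in Ioi (0:ℝ), ENNReal.ofReal (ρ ^ m) * f (v₀ + ρ • (θ : E (m + 1))) ≤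
      ENNReal.ofReal κ⁻¹ * ∫⁻ α, FF θ α := by
    intro θ
    have hθ : ‖(θ : E (m + 1))‖ = 1 := by simp
    have hFθ : Measurable (FF θ) := by
      have h9 := hFm.comp (measurable_prodMk_left (x := θ))
      simp only [Function.comp_def] at h9
      exact h9
    calc ∫⁻ ρ in Ioi (0:ℝ), ENNReal.ofReal (ρ ^ m) * f (v₀ + ρ • (θ : E (m + 1)))
        ≤ ∫⁻ ρ in Ioi (0:ℝ), FF θ (ray φ v₀ κ θ ρ) := by
          refine setLIntegral_mono' measurableSet_Ioi fun ρ hρ => ?_
          have hρ0 : (0:ℝ) < ρ := hρ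
          have e1 : ray φ v₀ κ θ ρ = φ (v₀ + ρ • (θ : E (m + 1))) := by
            unfold ray
            rw [if_neg (not_le.2 hρ0)]
          have e2 : max 0 (rinv φ v₀ κ (θ : E (m + 1)) (ray φ v₀ κ θ ρ)) = ρ := by
            rw [rinv_ray h hθ, max_eq_right hρ0.le]
          simp only [hf, hFF, hg]
          rw [e2, e1, ← lintegral_const_mul' _ _ ENNReal.ofReal_ne_top]
          apply le_of_eq
          refine lintegral_congr fun s => ?_
          rw [sub_self, indicator_of_mem (show (0:ℝ) ∈ {x : ℝ | x = 0} from rfl), one_mul]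
      _ ≤ ∫⁻ ρ, FF θ (ray φ v₀ κ θ ρ) := setLIntegral_le_lintegral _ _
      _ ≤ ENNReal.ofReal κ⁻¹ * ∫⁻ α, FF θ α :=
          expand_map (measurable_ray h _) hκ (ray_expand h hθ) hFθ
  -- the bound for one label and one height
  set ε : ℝ := 2 * r / (β * lam) with hε
  have hε0 : 0 < ε := by positivity
  have hone : ∀ α s, ∫⁻ θ : S, g ((θ, α), s) ∂(sg (m + 1)) ≤ ENNReal.ofReal (C1 * ε ^ m) *
      (toMeasurable volume (SS P D φ p r lam (σ α) α q w)).indicator (fun _ => 1) s := by
    intro α s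
    by_cases hs : s ∈ SS P D φ p r lam (σ α) α q w
    · rw [indicator_of_mem (subset_toMeasurable _ _ hs), mul_one]
      obtain ⟨hsP, hsl, v1, hv1, hφ1, hcl1⟩ := hs
      have hs0 : s - σ α ≠ 0 := by
        intro h0
        rw [h0, abs_zero] at hsl
        linarith
      refine le_trans (lintegral_mono fun θ => ?_) (hcap ε (v1 - v₀) hε0)
      show g ((θ, α), s) ≤ MM ε (v1 - v₀) (θ : E (m + 1))
      have hθ : ‖(θ : E (m + 1))‖ = 1 := by simp
      simp only [hg]
      set ρ : ℝ := max 0 (rinv φ v₀ κ (θ : E (m + 1)) α) with hρ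
      have hρ0 : 0 ≤ ρ := le_max_left _ _
      set v := v₀ + ρ • (θ : E (m + 1)) with hv
      by_cases h1 : φ v - α ∈ ({x : ℝ | x = 0} : Set ℝ)
      swap
      · rw [indicator_of_notMem h1]; simp
      have hφv : φ v = α := by
        have h2 : φ v - α = 0 := h1
        linarith
      by_cases h2 : v ∈ D
      swap
      · simp only [hΨ]
        rw [indicator_of_notMem h2]; simp
      by_cases h3 : ‖(p v + (s - σ α) • v) - (q + s • w)‖ ≤ r
      swap
      · simp only [hΨ]
        rw [ic_of_not h3]; simp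
      have h4 : β * ‖(s - σ α) • (v - v1)‖ ≤ 2 * r := by
        refine (hB v h2 v1 hv1 (by rw [hφv, hφ1]) _ hsP hs0).trans ?_
        have e : (p v + (s - σ α) • v) - (p v1 + (s - σ α) • v1) =
            ((p v + (s - σ α) • v) - (q + s • w)) - ((p v1 + (s - σ α) • v1) - (q + s • w)) := by abel
        rw [e]
        exact (norm_sub_le _ _).trans (by linarith)
      have h5 : ‖v - v1‖ ≤ ε := by
        rw [hε, le_div_iff₀ (by positivity)]
        rw [norm_smul, Real.norm_eq_abs] at h4
        calc ‖v - v1‖ * (β * lam) = β * (lam * ‖v - v1‖) := by ring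
          _ ≤ β * (|s - σ α| * ‖v - v1‖) := by gcongr
          _ ≤ 2 * r := h4
      have h6 : ENNReal.ofReal (ρ ^ m) ≤ MM ε (v1 - v₀) (θ : E (m + 1)) := by
        apply MM_ge hρ0 hθ
        have e : ρ • (θ : E (m + 1)) - (v1 - v₀) = v - v1 := by rw [hv]; abel
        rw [e]
        exact h5
      refine le_trans ?_ h6
      calc _ ≤ ENNReal.ofReal (ρ ^ m) * (1 * (1 * (1 * (1 * 1)))) := by
            simp only [hΨ]
            gcongr
            · exact indicator_le_self' (fun _ _ => zero_le_one) _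
            · exact indicator_le_self' (fun _ _ => zero_le_one) _
            · exact le1_le _ _
            · exact cu_le _ _ _
            · exact indicator_le_self' (fun _ _ => zero_le_one) _
        _ = _ := by simp
    · have h0 : ∀ θ : S, g ((θ, α), s) = 0 := by
        intro θ
        simp only [hg]
        set ρ : ℝ := max 0 (rinv φ v₀ κ (θ : E (m + 1)) α) with hρ
        set v := v₀ + ρ • (θ : E (m + 1)) with hv
        by_cases h1 : φ v - α ∈ ({x : ℝ | x = 0} : Set ℝ)
        swap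
        · rw [indicator_of_notMem h1]; simp
        have hφv : φ v = α := by
          have h2 : φ v - α = 0 := h1
          linarith
        by_cases h2 : v ∈ D
        swap
        · simp only [hΨ]
          rw [indicator_of_notMem h2]; simp
        by_cases h3 : ‖(p v + (s - σ α) • v) - (q + s • w)‖ ≤ r
        swap
        · simp only [hΨ]
          rw [ic_of_not h3]; simp
        have h4 : cu P lam (s - σ α) = 0 := by
          unfold cu
          by_cases h5 : s - σ α ∈ P
          · by_cases h6 : lam ≤ |s - σ α|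
            · exact absurd ⟨h5, h6, v, h2, hφv, h3⟩ hs
            · rw [oo_zero h6, mul_zero]
          · have : sI P (s - σ α) = 0 := indicator_of_notMem h5 _
            rw [this, zero_mul]
        simp only [hΨ]
        rw [h4]; simp
      rw [lintegral_congr h0, lintegral_zero]
      exact zero_le
  -- the bound for one label
  have hlab : ∀ α, ∫⁻ s in I, (∫⁻ θ : S, g ((θ, α), s) ∂(sg (m + 1))) ≤
      ENNReal.ofReal (C1 * ε ^ m) * (Icc (φ w) (φ w + 2 * L)).indicator
        (fun α => ENNReal.ofReal (8 * (1 + L) * r * ((α - φ w) + r)⁻¹)) α := by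
    intro α
    by_cases hα : α ∈ Icc (φ w) (φ w + 2 * L)
    swap
    · have h0 : ∀ (θ : S) s, g ((θ, α), s) = 0 := by
        intro θ s
        simp only [hg]
        set ρ : ℝ := max 0 (rinv φ v₀ κ (θ : E (m + 1)) α) with hρ
        set v := v₀ + ρ • (θ : E (m + 1)) with hv
        by_cases h1 : φ v - α ∈ ({x : ℝ | x = 0} : Set ℝ)
        swap
        · rw [indicator_of_notMem h1]; simp
        have hφv : φ v = α := by
          have h2 : φ v - α = 0 := h1
          linarith
        by_cases h2 : v ∈ D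
        swap
        · simp only [hΨ]
          rw [indicator_of_notMem h2]; simp
        by_cases h3 : φ w ≤ α
        · exfalso
          apply hα
          refine ⟨h3, ?_⟩
          have h4 := hL v w (by linarith [hDn v h2]) (by linarith)
          have h5 : L * ‖v - w‖ ≤ L * 2 := by
            gcongr
            exact (norm_sub_le _ _).trans (by linarith [hDn v h2])
          have := le_abs_self (φ v - φ w)
          rw [← hφv]
          linarith
        · simp only [hΨ]
          rw [le1_zero h3]; simp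
      rw [lintegral_congr fun s => (lintegral_congr fun θ => h0 θ s).trans lintegral_zero,
        lintegral_zero]
      exact zero_le
    rw [indicator_of_mem hα]
    obtain ⟨hα1, hα2⟩ := hα
    set T := toMeasurable volume (SS P D φ p r lam (σ α) α q w) with hT
    have hTm : MeasurableSet T := measurableSet_toMeasurable _ _
    calc ∫⁻ s in I, (∫⁻ θ : S, g ((θ, α), s) ∂(sg (m + 1)))
        ≤ ∫⁻ s in I, ENNReal.ofReal (C1 * ε ^ m) * T.indicator (fun _ => 1) s :=
          lintegral_mono fun s => hone α s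
      _ = ENNReal.ofReal (C1 * ε ^ m) * ∫⁻ s in I, T.indicator (fun _ => 1) s :=
          lintegral_const_mul' _ _ ENNReal.ofReal_ne_top
      _ ≤ _ := by
          gcongr
          rcases le_or_gt (α - φ w) r with h1 | h1
          · calc ∫⁻ s in I, T.indicator (fun _ => (1 : ℝ≥0∞)) s ≤ ∫⁻ _s in I, 1 :=
                  lintegral_mono fun s => indicator_le_self' (fun _ _ => zero_le_one) s
              _ = ENNReal.ofReal 4 := by
                  rw [lintegral_one, Measure.restrict_apply_univ, Real.volume_Icc]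
                  congr 1
                  ring
              _ ≤ _ := by
                  apply ENNReal.ofReal_le_ofReal
                  have h2 : 0 < α - φ w + r := by linarith
                  rw [← div_eq_mul_inv, le_div_iff₀ h2]
                  nlinarith [mul_pos hL0 hr]
          · have hφα : φ w < α := by linarith
            calc ∫⁻ s in I, T.indicator (fun _ => (1 : ℝ≥0∞)) s ≤ ∫⁻ s, T.indicator (fun _ => 1) s :=
                  setLIntegral_le_lintegral _ _
              _ = volume (SS P D φ p r lam (σ α) α q w) := by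
                  rw [lintegral_indicator_const hTm, one_mul, measure_toMeasurable]
              _ ≤ ENNReal.ofReal (4 * L * r / (α - φ w)) :=
                  vol_SS h.conv hL0 hL hr hl hrl hDn hA (σ α) α hwn hφα
              _ ≤ _ := by
                  apply ENNReal.ofReal_le_ofReal
                  rw [← div_eq_mul_inv, div_le_div_iff₀ (by linarith) (by linarith)]
                  have h2 : 0 < L * r := by positivity
                  nlinarith [mul_pos hr (by linarith : 0 < α - φ w),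
                    mul_pos h2 (by linarith : 0 < α - φ w),
                    mul_pos h2 (by linarith : 0 < α - φ w - r)]
  calc ∫⁻ v, f v = ∫⁻ z, f (v₀ + z) := (lintegral_add_left_eq_self f v₀).symm
    _ = ∫⁻ θ : S, (∫⁻ ρ in Ioi (0:ℝ), ENNReal.ofReal (ρ ^ m) * f (v₀ + ρ • (θ : E (m + 1)))) ∂(sg (m + 1)) :=
        polar m (fun z => f (v₀ + z)) (hfm.comp (measurable_const_add v₀))
    _ ≤ ∫⁻ θ : S, (ENNReal.ofReal κ⁻¹ * ∫⁻ α, FF θ α) ∂(sg (m + 1)) := lintegral_mono hstep
    _ = ENNReal.ofReal κ⁻¹ * ∫⁻ θ : S, (∫⁻ α, FF θ α) ∂(sg (m + 1)) :=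
        lintegral_const_mul' _ _ ENNReal.ofReal_ne_top
    _ = ENNReal.ofReal κ⁻¹ * ∫⁻ α, (∫⁻ θ : S, FF θ α ∂(sg (m + 1))) := by
        congr 1
        exact lintegral_lintegral_swap hFm.aemeasurable
    _ = ENNReal.ofReal κ⁻¹ * ∫⁻ α, ∫⁻ s in I, (∫⁻ θ : S, g ((θ, α), s) ∂(sg (m + 1))) := by
        congr 1
        refine lintegral_congr fun α => ?_
        simp only [hFF]
        apply lintegral_lintegral_swap
        have h1 : Measurable (fun z : S × ℝ => g ((z.1, α), z.2)) :=
          hgm.comp ((measurable_fst.prodMk measurable_const).prodMk measurable_snd)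
        exact h1.aemeasurable
    _ ≤ ENNReal.ofReal κ⁻¹ * ∫⁻ α, ENNReal.ofReal (C1 * ε ^ m) *
          (Icc (φ w) (φ w + 2 * L)).indicator
            (fun α => ENNReal.ofReal (8 * (1 + L) * r * ((α - φ w) + r)⁻¹)) α := by
        gcongr with α
        exact hlab α
    _ = ENNReal.ofReal κ⁻¹ * (ENNReal.ofReal (C1 * ε ^ m) * ∫⁻ α,
          (Icc (φ w) (φ w + 2 * L)).indicator
            (fun α => ENNReal.ofReal (8 * (1 + L) * r * ((α - φ w) + r)⁻¹)) α) := by
        rw [lintegral_const_mul' _ _ ENNReal.ofReal_ne_top]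
    _ ≤ ENNReal.ofReal κ⁻¹ * (ENNReal.ofReal (C1 * ε ^ m) *
          ENNReal.ofReal (8 * (1 + L) * (1 + Real.log (1 + 2 * L)) * r * ell r)) := by
        gcongr
        exact label_int hL0 hr (φ w)
    _ = _ := by
        rw [← ENNReal.ofReal_mul (by positivity), ← ENNReal.ofReal_mul (by positivity)]
        congr 1
        have e : ε ^ m = (2 / β) ^ m * (r ^ m * lam⁻¹ ^ m) := by
          rw [hε, ← mul_pow, ← mul_pow]
          congr 1
          field_simp
        rw [e, pow_succ, Nat.add_sub_cancel]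
        ring

/-- Shortest segments do not focus. -/
theorem spread_of_shortest {d : ℕ} {x x' q : E d} {t : ℝ} (ht : 0 < t)
    (h1 : 2 * t * ‖x‖ ≤ ‖q + (2 * t) • x‖) (h2 : 2 * t * ‖x'‖ ≤ ‖-q + (2 * t) • x'‖) :
    t * ‖x - x'‖ ≤ ‖q + t • (x - x')‖ := by
  have e1 : ‖q + (2 * t) • x‖ ^ 2 = ‖q‖ ^ 2 + 4 * t * inner ℝ q x + 4 * t ^ 2 * ‖x‖ ^ 2 := by
    rw [norm_add_sq_real, inner_smul_right, norm_smul, Real.norm_eq_abs, mul_pow, sq_abs]
    ring
  have e2 : ‖-q + (2 * t) • x'‖ ^ 2 = ‖q‖ ^ 2 - 4 * t * inner ℝ q x' + 4 * t ^ 2 * ‖x'‖ ^ 2 := by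
    rw [norm_add_sq_real, inner_smul_right, norm_smul, Real.norm_eq_abs, mul_pow, sq_abs, norm_neg,
      inner_neg_left]
    ring
  have h1' : (2 * t * ‖x‖) ^ 2 ≤ ‖q + (2 * t) • x‖ ^ 2 := pow_le_pow_left₀ (by positivity) h1 2
  have h2' : (2 * t * ‖x'‖) ^ 2 ≤ ‖-q + (2 * t) • x'‖ ^ 2 := pow_le_pow_left₀ (by positivity) h2 2
  rw [e1] at h1'
  rw [e2] at h2'
  have h3 : (t * ‖x - x'‖) ^ 2 ≤ ‖q + t • (x - x')‖ ^ 2 := by
    have e3 : ‖q + t • (x - x')‖ ^ 2 = ‖q‖ ^ 2 + 2 * t * inner ℝ q (x - x') + t ^ 2 * ‖x - x'‖ ^ 2 := by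
      rw [norm_add_sq_real, inner_smul_right, norm_smul, Real.norm_eq_abs, mul_pow, sq_abs]
      ring
    rw [e3, inner_sub_right]
    nlinarith
  exact le_of_sq_le_sq h3 (norm_nonneg _)

end Pool.Agent.W2helper94.FW
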